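import Pool.Agent.NF44.Glue
import Pool.Agent.NF44.Case1Core

/-!
# Henselian expansions of NIP_n fields, residue characteristic zero
-/

namespace Pool.Agent.Results.MP_fb46bb_lc.HenselianNIPn

open Pool.Agent.NF44

universe u

/-- For every `n ≥ 1`: if `K` is NIP_n as a pure field and `O` is a henselian valuation ring of `K`
with residue field of characteristic 0, then the valued field `(K, O)` is NIP_n. -/
theorem result (n : ℕ) (hn : 1 ≤ n) (K : Type u) [Field K] (O : ValuationSubring K)
    [HenselianLocalRing O] [CharZero (IsLocalRing.ResidueField O)] (h : FieldNIP n K) :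
    ValuedNIP n K O :=
  glue_all (case1Core glue_main hensCoarsen los tpForth glue_close) n hn K O h

end Pool.Agent.Results.MP_fb46bb_lc.HenselianNIPn
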